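import Pool.Agent.H26.REM.Targets

/-!
# Row CNT of the board REM: many exponents of small norm
-/

set_option autoImplicit false

open Finset Pool.Agent.H26.REM

namespace Pool.Agent.H69.REM

/-- the number of integers in an interval of length `L` is at least `L - 1` -/
theorem card_Icc_ge (x y : ℝ) : y - x - 1 ≤ ((Icc ⌈x⌉ ⌊y⌋).card : ℝ) := by
  rw [Int.card_Icc]
  have h1 : ((⌊y⌋ + 1 - ⌈x⌉ : ℤ) : ℝ) ≤ (((⌊y⌋ + 1 - ⌈x⌉).toNat : ℤ) : ℝ) := by
    exact_mod_cast Int.self_le_toNat _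
  have h2 : y < ⌊y⌋ + 1 := Int.lt_floor_add_one y
  have h3 : (⌈x⌉ : ℝ) < x + 1 := Int.ceil_lt_add_one x
  push_cast at h1
  linarith

/-- **Row CNT.** -/
theorem pf_CNT : T_CNT := by
  classical
  intro r
  refine ⟨1 / 4 * (1 / (4 * ((r : ℝ) + 1))) ^ r, by positivity, ?_⟩
  intro lam σ H ξ hlam hH hσ
  set A : ℝ := σ / (4 * lam) with hA
  set t : Fin r → ℝ := fun i => σ / (4 * ((r : ℝ) + 1) * H i) with ht
  have hA0 : 0 < A := by positivity
  have ht0 : ∀ i, 0 < t i := fun i => by have := hH i; rw [ht]; positivity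
  obtain ⟨Q, hQ1, hQt⟩ : ∃ Q : ℕ, 1 ≤ Q ∧ ∀ i, 1 ≤ (Q : ℝ) * t i := by
    refine ⟨1 + ∑ i, ⌈1 / t i⌉₊, by omega, fun i => ?_⟩
    have h1 : ⌈1 / t i⌉₊ ≤ ∑ j, ⌈1 / t j⌉₊ :=
      Finset.single_le_sum (f := fun j => ⌈1 / t j⌉₊) (fun j _ => Nat.zero_le _)
        (Finset.mem_univ i)
    have h2 : 1 / t i ≤ (⌈1 / t i⌉₊ : ℝ) := Nat.le_ceil _
    have h3 : (⌈1 / t i⌉₊ : ℝ) ≤ ((∑ j, ⌈1 / t j⌉₊ : ℕ) : ℝ) := by exact_mod_cast h1
    have h4 : 1 / t i ≤ ((1 + ∑ j, ⌈1 / t j⌉₊ : ℕ) : ℝ) := by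
      rw [Nat.cast_add, Nat.cast_one]; linarith
    calc (1 : ℝ) = 1 / t i * t i := by field_simp [(ht0 i).ne']
      _ ≤ _ := mul_le_mul_of_nonneg_right h4 (ht0 i).le
  have hQ0 : (0 : ℝ) < Q := by exact_mod_cast hQ1
  haveI : NeZero Q := ⟨by omega⟩
  -- the points
  let I : ℤ → Fin r → Finset ℤ := fun b i =>
    Icc ⌈(Q : ℝ) * (b * ξ i - t i)⌉ ⌊(Q : ℝ) * (b * ξ i + t i)⌋
  let P : Finset (Σ _ : ℤ, Fin r → ℤ) :=
    (Icc (-⌊A⌋) ⌊A⌋).sigma fun b => Fintype.piFinset (I b)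
  have hI : ∀ b i, (Q : ℝ) * t i ≤ ((I b i).card : ℝ) := by
    intro b i
    have h1 := card_Icc_ge ((Q : ℝ) * (b * ξ i - t i)) ((Q : ℝ) * (b * ξ i + t i))
    have h2 := hQt i
    have h3 : (Q : ℝ) * (b * ξ i + t i) - (Q : ℝ) * (b * ξ i - t i) = 2 * (Q * t i) := by ring
    rw [h3] at h1
    change (Q : ℝ) * t i ≤ ((Icc ⌈(Q : ℝ) * (b * ξ i - t i)⌉
      ⌊(Q : ℝ) * (b * ξ i + t i)⌋).card : ℝ)
    linarith
  have hP : A * ∏ i, ((Q : ℝ) * t i) ≤ (P.card : ℝ) := by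
    have h1 : (P.card : ℝ) = ∑ b ∈ Icc (-⌊A⌋) ⌊A⌋, ∏ i, ((I b i).card : ℝ) := by
      change ((((Icc (-⌊A⌋) ⌊A⌋).sigma fun b => Fintype.piFinset (I b)).card : ℕ) : ℝ) = _
      rw [Finset.card_sigma]
      push_cast
      refine Finset.sum_congr rfl fun b _ => ?_
      rw [Fintype.card_piFinset]
      push_cast
      rfl
    rw [h1]
    have h2 : ∀ b ∈ Icc (-⌊A⌋) ⌊A⌋, ∏ i, ((Q : ℝ) * t i) ≤ ∏ i, ((I b i).card : ℝ) := by
      intro b _
      exact Finset.prod_le_prod (fun i _ => by have := hQt i; linarith) fun i _ => hI b i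
    refine le_trans ?_ (Finset.sum_le_sum h2)
    rw [Finset.sum_const, nsmul_eq_mul]
    have h3 : 0 ≤ ∏ i, ((Q : ℝ) * t i) := Finset.prod_nonneg fun i _ => by
      have := hQt i; linarith
    refine mul_le_mul_of_nonneg_right ?_ h3
    rw [Int.card_Icc]
    have h4 : (0 : ℤ) ≤ ⌊A⌋ := Int.floor_nonneg.2 hA0.le
    have h5 : ((⌊A⌋ + 1 - -⌊A⌋).toNat : ℤ) = ⌊A⌋ + 1 + ⌊A⌋ := by
      rw [Int.toNat_of_nonneg (by omega)]; ring
    have h6 : (((⌊A⌋ + 1 - -⌊A⌋).toNat : ℕ) : ℝ) = (⌊A⌋ : ℝ) + 1 + ⌊A⌋ := by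
      have h7 : (((⌊A⌋ + 1 - -⌊A⌋).toNat : ℤ) : ℝ) = ((⌊A⌋ + 1 + ⌊A⌋ : ℤ) : ℝ) := by rw [h5]
      push_cast at h7 ⊢
      exact h7
    rw [h6]
    have h8 : A < ⌊A⌋ + 1 := Int.lt_floor_add_one A
    have h9 : (0 : ℝ) ≤ ⌊A⌋ := by exact_mod_cast h4
    linarith
  -- the pigeonhole principle
  let cl : (Σ _ : ℤ, Fin r → ℤ) → (Fin r → ZMod Q) := fun x i => (x.2 i : ZMod Q)
  have hcard : (Finset.univ : Finset (Fin r → ZMod Q)).card = Q ^ r := by
    rw [Finset.card_univ, Fintype.card_fun, ZMod.card, Fintype.card_fin]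
  have hpig : ((Finset.univ : Finset (Fin r → ZMod Q)).card) • (A * ∏ i, t i) ≤
      (P.card : ℝ) := by
    rw [hcard, nsmul_eq_mul]
    refine le_trans (le_of_eq ?_) hP
    rw [Finset.prod_mul_distrib, Finset.prod_const, Finset.card_univ, Fintype.card_fin]
    push_cast
    ring
  obtain ⟨z, -, hz⟩ := Finset.exists_le_card_fiber_of_nsmul_le_card_of_maps_to
    (s := P) (t := Finset.univ) (f := cl) (fun _ _ => Finset.mem_univ _) Finset.univ_nonempty hpig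
  set F := P.filter fun x => cl x = z with hF
  have hpos : 0 < A * ∏ i, t i := mul_pos hA0 (Finset.prod_pos fun i _ => ht0 i)
  have hFne : F.Nonempty := by
    rw [← Finset.card_pos]
    have h1 : (0 : ℝ) < (F.card : ℝ) := lt_of_lt_of_le hpos hz
    exact_mod_cast h1
  obtain ⟨x₀, hx₀⟩ := hFne
  have hmem : ∀ x ∈ F, |(x.1 : ℝ)| ≤ A ∧ (∀ i, |(x.2 i : ℝ) - Q * (x.1 * ξ i)| ≤ Q * t i) ∧
      ∀ i, (Q : ℤ) ∣ x.2 i - x₀.2 i := by
    intro x hx
    have h0 := (Finset.mem_filter.1 hx₀).2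
    obtain ⟨hxP, hxz⟩ := Finset.mem_filter.1 hx
    rw [Finset.mem_sigma] at hxP
    obtain ⟨h1, h2⟩ := hxP
    rw [Finset.mem_Icc] at h1
    rw [Fintype.mem_piFinset] at h2
    refine ⟨?_, ?_, ?_⟩
    · have h3 : (⌊A⌋ : ℝ) ≤ A := Int.floor_le A
      have h4 : (-(⌊A⌋ : ℝ)) ≤ x.1 := by exact_mod_cast h1.1
      have h5 : (x.1 : ℝ) ≤ ⌊A⌋ := by exact_mod_cast h1.2
      rw [abs_le]
      constructor <;> linarith
    · intro i
      have h3 := h2 i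
      change x.2 i ∈ Icc ⌈(Q : ℝ) * (x.1 * ξ i - t i)⌉ ⌊(Q : ℝ) * (x.1 * ξ i + t i)⌋ at h3
      rw [Finset.mem_Icc, Int.ceil_le, Int.le_floor] at h3
      rw [abs_le]
      constructor <;> linarith [h3.1, h3.2]
    · intro i
      have h3 : (x.2 i : ZMod Q) = (x₀.2 i : ZMod Q) := by
        have h4 := congrFun hxz i
        have h5 := congrFun h0 i
        exact h4.trans h5.symm
      have h4 := (ZMod.intCast_eq_intCast_iff_dvd_sub _ _ Q).1 h3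
      have h5 := (dvd_neg (a := (Q : ℤ))).2 h4
      rwa [neg_sub] at h5
  let g : (Σ _ : ℤ, Fin r → ℤ) → (Fin (r + 1) → ℤ) := fun x =>
    Fin.cons (x.1 - x₀.1) fun i => (x.2 i - x₀.2 i) / Q
  have hginj : Set.InjOn g F := by
    intro x hx y hy hxy
    have h1 : x.1 = y.1 := by
      have h2 := congrFun hxy 0
      change x.1 - x₀.1 = y.1 - x₀.1 at h2
      linarith
    have h3 : x.2 = y.2 := by
      funext i
      have h2 := congrFun hxy i.succ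
      change (x.2 i - x₀.2 i) / (Q : ℤ) = (y.2 i - x₀.2 i) / (Q : ℤ) at h2
      have h4 := Int.mul_ediv_cancel' ((hmem x hx).2.2 i)
      have h5 := Int.mul_ediv_cancel' ((hmem y hy).2.2 i)
      rw [h2, h5] at h4
      linarith
    rcases x with ⟨x1, x2⟩
    rcases y with ⟨y1, y2⟩
    simp only at h1 h3
    rw [h1, h3]
  refine ⟨F.image g, ?_, ?_⟩
  · intro b hb
    rw [Finset.mem_image] at hb
    obtain ⟨x, hx, rfl⟩ := hb
    obtain ⟨hx1, hx2, hx3⟩ := hmem x hx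
    obtain ⟨hy1, hy2, -⟩ := hmem x₀ hx₀
    unfold nrH
    have hg0 : g x 0 = x.1 - x₀.1 := rfl
    have hgs : ∀ i : Fin r, g x i.succ = (x.2 i - x₀.2 i) / (Q : ℤ) := fun i => rfl
    have e1 : |((g x 0 : ℤ) : ℝ)| * lam ≤ σ / 2 := by
      rw [hg0]
      push_cast
      have h1 : |(x.1 : ℝ) - x₀.1| ≤ 2 * A := by
        refine (abs_sub _ _).trans ?_
        linarith
      calc |(x.1 : ℝ) - x₀.1| * lam ≤ 2 * A * lam := mul_le_mul_of_nonneg_right h1 hlam.le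
        _ = σ / 2 := by rw [hA]; field_simp; ring
    have e2 : ∀ i, H i * |((g x i.succ : ℤ) : ℝ) - ((g x 0 : ℤ) : ℝ) * ξ i| ≤
        σ / (2 * ((r : ℝ) + 1)) := by
      intro i
      have h1 : (((x.2 i - x₀.2 i) / (Q : ℤ) : ℤ) : ℝ) * Q = (x.2 i : ℝ) - x₀.2 i := by
        have h2 := Int.ediv_mul_cancel (hx3 i)
        have h3 : ((((x.2 i - x₀.2 i) / (Q : ℤ)) * (Q : ℤ) : ℤ) : ℝ) =
          ((x.2 i - x₀.2 i : ℤ) : ℝ) := by rw [h2]
        push_cast at h3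
        exact h3
      have h2 : |(((x.2 i - x₀.2 i) / (Q : ℤ) : ℤ) : ℝ) - ((x.1 : ℝ) - x₀.1) * ξ i| ≤
          2 * t i := by
        have h3 : (((((x.2 i - x₀.2 i) / (Q : ℤ) : ℤ) : ℝ) - ((x.1 : ℝ) - x₀.1) * ξ i)) * Q =
            ((x.2 i : ℝ) - Q * (x.1 * ξ i)) - ((x₀.2 i : ℝ) - Q * (x₀.1 * ξ i)) := by
          rw [sub_mul, h1]; ring
        have h4 : |((((x.2 i - x₀.2 i) / (Q : ℤ) : ℤ) : ℝ) - ((x.1 : ℝ) - x₀.1) * ξ i)| * Q ≤
            2 * t i * Q := by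
          rw [← abs_of_pos hQ0, ← abs_mul, abs_of_pos hQ0, h3]
          refine (abs_sub _ _).trans ?_
          have h5 := hx2 i
          have h6 := hy2 i
          linarith
        exact le_of_mul_le_mul_right h4 hQ0
      rw [hgs, hg0]
      push_cast
      have h7 := hH i
      calc _ ≤ H i * (2 * t i) := mul_le_mul_of_nonneg_left h2 h7.le
        _ = σ / (2 * ((r : ℝ) + 1)) := by
          rw [ht]
          field_simp
          ring
    have e3 : ∑ i, H i * |((g x i.succ : ℤ) : ℝ) - ((g x 0 : ℤ) : ℝ) * ξ i| ≤ σ / 2 := by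
      refine (Finset.sum_le_sum fun i _ => e2 i).trans ?_
      rw [Finset.sum_const, Finset.card_univ, Fintype.card_fin, nsmul_eq_mul]
      have hr0 : (0 : ℝ) ≤ r := Nat.cast_nonneg r
      rw [← mul_div_assoc, div_le_div_iff₀ (by positivity) (by norm_num)]
      nlinarith
    linarith
  · rw [Finset.card_image_of_injOn hginj]
    refine le_trans (le_of_eq ?_) hz
    have h1 : ∏ i, t i = σ ^ r * (1 / (4 * ((r : ℝ) + 1))) ^ r / ∏ i, H i := by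
      rw [ht]
      have h2 : ∀ i : Fin r, σ / (4 * ((r : ℝ) + 1) * H i) =
          σ * (1 / (4 * ((r : ℝ) + 1))) / H i := by
        intro i
        have := (hH i).ne'
        field_simp
      simp_rw [h2]
      rw [Finset.prod_div_distrib, Finset.prod_const, Finset.card_univ, Fintype.card_fin, mul_pow]
    rw [h1, hA]
    have h3 : (∏ i, H i) ≠ 0 := (Finset.prod_pos fun i _ => hH i).ne'
    rw [pow_succ]
    field_simp

end Pool.Agent.H69.REM
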