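import Pool.Agent.H26.REM.Targets

/-!
# Row DKG of the board REM: an integral basis and the discriminant
-/

set_option autoImplicit false

open NumberField Pool.Agent.H26.REM

namespace Pool.Agent.H69.REM

/-- **Row DKG.** -/
theorem pf_DKG : T_DKG := by
  classical
  intro K _ _
  have hc1 : Fintype.card (Module.Free.ChooseBasisIndex ℤ (𝓞 K)) =
      Fintype.card (Fin (Module.finrank ℚ K)) := by
    rw [← Module.finrank_eq_card_chooseBasisIndex, RingOfIntegers.rank, Fintype.card_fin]
  have hc2 : Fintype.card (Fin (Module.finrank ℚ K)) = Fintype.card (K →+* ℂ) := by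
    rw [Embeddings.card, Fintype.card_fin]
  let b : Module.Basis (Fin (Module.finrank ℚ K)) ℤ (𝓞 K) :=
    (RingOfIntegers.basis K).reindex (Fintype.equivOfCardEq hc1)
  let e : Fin (Module.finrank ℚ K) ≃ (K →+* ℂ) := Fintype.equivOfCardEq hc2
  let b' : Module.Basis (Fin (Module.finrank ℚ K)) ℚ K :=
    b.localizationLocalization ℚ (nonZeroDivisors ℤ) K
  have hb' : ∀ l, b' l = (b l : K) := by
    intro l
    exact Module.Basis.localizationLocalization_apply ℚ (nonZeroDivisors ℤ) K b l
  refine ⟨b, e, ?_, ?_, ?_⟩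
  · have h := b'.linearIndependent
    have h2 : (fun l => (b l : K)) = b' := by
      funext l; exact (hb' l).symm
    rw [h2]; exact h
  · intro c
    refine ⟨fun l => b.repr c l, ?_⟩
    have h := b.sum_repr c
    rw [← h]
    conv_rhs => rw [h]
    refine Finset.sum_congr rfl fun l _ => ?_
    rw [zsmul_eq_mul]
  · have h1 := NumberField.discr_eq_discr K b
    have h2 := Algebra.discr_localizationLocalization ℤ (Rₘ := ℚ) (nonZeroDivisors ℤ) K b
    have h3 := Algebra.discr_eq_det_embeddingsMatrixReindex_pow_two ℚ ℂ b'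
      (e.trans (RingHom.equivRatAlgHom K ℂ))
    have h4 : Algebra.embeddingsMatrixReindex ℚ ℂ b' (e.trans (RingHom.equivRatAlgHom K ℂ)) =
        Matrix.of fun k l => e l (b k : K) := by
      ext k l
      simp [Algebra.embeddingsMatrixReindex, Algebra.embeddingsMatrix, hb']
    rw [h4] at h3
    have h5 : Algebra.discr ℚ b' = ((discr K : ℤ) : ℚ) := by
      rw [← h1]; exact h2
    rw [h5] at h3
    rw [← norm_pow, ← h3]
    have h6 : (algebraMap ℚ ℂ) ((discr K : ℤ) : ℚ) = ((discr K : ℤ) : ℂ) := by
      simp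
    rw [h6, Complex.norm_intCast]

end Pool.Agent.H69.REM
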