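import Pool.Agent.H26.REM.Targets

/-!
# Row EIV of the board REM: the value of a zero of an Eisenstein polynomial
-/

set_option autoImplicit false

open Pool.Agent.H26.REM

namespace Pool.Agent.H69.REM

section vals

variable {M : Type} [Field M] (v : AbsoluteValue M ℝ) (hv : IsNonarchimedean v)

include hv

/-- integers have absolute value at most one -/
theorem val_int_le_one (n : ℤ) : v (n : M) ≤ 1 := by
  have h : ∀ m : ℕ, v (m : M) ≤ 1 := fun m => IsNonarchimedean.apply_natCast_le_one hv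
  obtain ⟨m, rfl | rfl⟩ := Int.eq_nat_or_neg n
  · simpa using h m
  · simpa using h m

/-- values of integral polynomials at integral elements -/
theorem val_aeval_le_one (r : Polynomial ℤ) (y : M) (hy : v y ≤ 1) :
    v (Polynomial.aeval y r) ≤ 1 := by
  induction r using Polynomial.induction_on' with
  | add p q hp hq =>
    rw [map_add]
    exact (hv _ _).trans (max_le hp hq)
  | monomial n a =>
    rw [Polynomial.aeval_monomial, map_mul, map_pow]
    have h1 : v (algebraMap ℤ M a) ≤ 1 := by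
      rw [eq_intCast]; exact val_int_le_one v hv a
    exact mul_le_one₀ h1 (by positivity) (pow_le_one₀ (v.nonneg _) hy)

/-- the strict ultrametric equality -/
theorem val_add_of_lt (a b : M) (h : v b < v a) : v (a + b) = v a := by
  rw [IsNonarchimedean.add_eq_max_of_ne' (fun x => v x) hv
    (fun x => (AbsoluteValue.map_neg v x).symm) h.ne']
  exact max_eq_left h.le

end vals

/-- integers prime to `p` are units -/
theorem val_int_eq_one {M : Type} [Field M] (v : AbsoluteValue M ℝ) (p : ℕ)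
    (h : ∀ m : ℕ, ¬ p ∣ m → v (m : M) = 1) (n : ℤ) (hn : ¬ (p : ℤ) ∣ n) : v (n : M) = 1 := by
  have h1 := h n.natAbs (by rwa [← Int.natCast_dvd])
  obtain ⟨m, hm | hm⟩ := Int.eq_nat_or_neg n
  · rw [hm] at h1 ⊢
    simpa using h1
  · rw [hm] at h1 ⊢
    simpa using h1

/-- the arithmetic of `A ^ (p ^ k) - A` -/
theorem pow_sub_self (p k : ℕ) (A : ℤ) (hp : p.Prime) (hk : 1 ≤ k) (hA : ¬ (p : ℤ) ∣ A)
    (hA2 : ¬ (p : ℤ) ^ 2 ∣ A ^ (p - 1) - 1) :
    ∃ w : ℤ, A ^ (p ^ k) - A = p * w ∧ ¬ (p : ℤ) ∣ w := by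
  haveI := Fact.mk hp
  have hF : ∀ m : ℕ, (p : ℤ) ∣ A ^ (p ^ m) - A := by
    intro m
    rw [← ZMod.intCast_zmod_eq_zero_iff_dvd]
    push_cast
    rw [ZMod.pow_card_pow, sub_self]
  obtain ⟨w, hw⟩ := hF k
  refine ⟨w, hw, ?_⟩
  rintro ⟨u, hu⟩
  obtain ⟨j, rfl⟩ : ∃ j, k = j + 1 := ⟨k - 1, by omega⟩
  have h1 := dvd_sub_pow_of_dvd_sub (hF j) 1
  rw [pow_one, ← pow_mul, ← pow_succ] at h1
  have h2 : (p : ℤ) ^ 2 ∣ A ^ p - A := by
    have h3 : (p : ℤ) ^ 2 ∣ A ^ p ^ (j + 1) - A := ⟨u, by rw [hw, hu]; ring⟩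
    have h4 := dvd_sub h3 h1
    have h5 : A ^ p ^ (j + 1) - A - (A ^ p ^ (j + 1) - A ^ p) = A ^ p - A := by ring
    rwa [h5] at h4
  have h6 : A ^ p - A = A * (A ^ (p - 1) - 1) := by
    have : A ^ p = A * A ^ (p - 1) := by
      rw [← pow_succ', Nat.sub_add_cancel hp.one_le]
    rw [this]; ring
  rw [h6] at h2
  apply hA2
  have hcop : IsCoprime ((p : ℤ) ^ 2) A := by
    apply IsCoprime.pow_left
    exact (Nat.prime_iff_prime_int.1 hp).coprime_iff_not_dvd.2 hA
  exact hcop.dvd_of_dvd_mul_left h2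

/-- **Row EIV.** -/
theorem pf_EIV : T_EIV := by
  intro M _ _ v hv p k A π hp hk hp0 hp1 hval hA hA2 hπ
  have hQ : 0 < p ^ k := pow_pos hp.pos k
  have hvA : v (A : M) = 1 := val_int_eq_one v p hval A hA
  have hvπ : v π = 1 := by
    have h1 : v π ^ (p ^ k) = 1 := by rw [← map_pow, hπ, hvA]
    exact (pow_eq_one_iff_of_nonneg (v.nonneg _) hQ.ne').1 h1
  set y : M := π - (A : M) with hy
  have hvy : v y ≤ 1 := by
    have h1 := hv π (-(A : M))
    rw [AbsoluteValue.map_neg, hvπ, hvA, max_self, ← sub_eq_add_neg] at h1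
    exact h1
  obtain ⟨r, hr⟩ := exists_add_pow_prime_pow_eq hp (Polynomial.X : Polynomial ℤ)
    (Polynomial.C A) k
  have hr2 := congrArg (Polynomial.aeval y) hr
  simp only [map_pow, map_add, map_mul, Polynomial.aeval_X, Polynomial.aeval_C, map_natCast,
    eq_intCast, map_intCast] at hr2
  have hyA : y + (A : M) = π := by rw [hy]; ring
  rw [hyA, hπ] at hr2
  set R : M := Polynomial.aeval y r with hR
  have hvR : v R ≤ 1 := val_aeval_le_one v hv r y hvy
  obtain ⟨w, hw, hpw⟩ := pow_sub_self p k A hp hk hA hA2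
  have hwM : (A : M) ^ (p ^ k) - A = p * w := by exact_mod_cast congrArg (Int.cast (R := M)) hw
  have hvw : v (w : M) = 1 := val_int_eq_one v p hval w hpw
  have hyQ : y ^ (p ^ k) = -((p : M) * w) + -((p : M) * y * A * R) := by
    rw [← hwM]
    linear_combination -hr2
  have hv1 : v (-((p : M) * w)) = v (p : M) := by
    rw [AbsoluteValue.map_neg, map_mul, hvw, mul_one]
  have hv2 : v (-((p : M) * y * A * R)) ≤ v (p : M) * v y := by
    rw [AbsoluteValue.map_neg, map_mul, map_mul, map_mul, hvA, mul_one]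
    exact mul_le_of_le_one_right (by positivity) hvR
  have hy1 : v y < 1 := by
    have h1 : v y ^ (p ^ k) ≤ v (p : M) := by
      rw [← map_pow, hyQ]
      refine (hv _ _).trans (max_le hv1.le (hv2.trans ?_))
      exact mul_le_of_le_one_right hp0.le hvy
    by_contra hcon
    rw [not_lt] at hcon
    have h2 : (1 : ℝ) ≤ v y ^ (p ^ k) := one_le_pow₀ hcon
    linarith
  have hlt : v (-((p : M) * y * A * R)) < v (-((p : M) * w)) := by
    rw [hv1]
    refine lt_of_le_of_lt hv2 ?_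
    exact mul_lt_of_lt_one_right hp0 hy1
  rw [← map_pow, hyQ, val_add_of_lt v hv _ _ hlt, hv1]

end Pool.Agent.H69.REM
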