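import Pool.Agent.H26.REM.Targets

/-!
# Row LLF of the board REM: the lattice of a tuple is a lattice
-/

set_option autoImplicit false

open NumberField Pool.Agent.H26.REM

namespace Pool.Agent.H69.REM

/-- **Row LLF.** -/
theorem pf_LLF : T_LLF := by
  classical
  intro M _ _ S _ Y hY
  obtain ⟨b₀, hb₀⟩ : ∃ b, Y b ≠ 0 := by
    by_contra h
    push Not at h
    exact hY (funext h)
  refine ⟨?_, ?_, ?_⟩
  · unfold LL
    apply Submodule.FG.restrictScalars
    exact Submodule.fg_span (Set.finite_range Y)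
  · rw [eq_top_iff]
    intro x _
    obtain ⟨d, hd, c, hc⟩ : ∃ d : ℤ, d ≠ 0 ∧ ∃ c : 𝓞 M, (c : M) = (d : M) * (x / Y b₀) := by
      obtain ⟨d, hd, hi⟩ := IsAlgebraic.exists_integral_multiple
        ((IsFractionRing.isAlgebraic_iff ℤ ℚ M).2
          (Algebra.IsAlgebraic.isAlgebraic (R := ℚ) (x / Y b₀)))
      refine ⟨d, hd, ⟨d • (x / Y b₀), hi⟩, ?_⟩
      simp
    have hmem : (c : M) * Y b₀ ∈ LL Y := by
      unfold LL
      rw [Submodule.restrictScalars_mem]
      have := Submodule.smul_mem (Submodule.span (𝓞 M) (Set.range Y)) c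
        (Submodule.subset_span ⟨b₀, rfl⟩)
      rwa [Algebra.smul_def] at this
    have h2 : x = (d : ℚ)⁻¹ • ((c : M) * Y b₀) := by
      rw [hc, Algebra.smul_def]
      have hd' : (d : M) ≠ 0 := by exact_mod_cast hd
      have h3 : (algebraMap ℚ M) ((d : ℚ)⁻¹) = (d : M)⁻¹ := by simp
      rw [h3]
      field_simp
    rw [h2]
    exact Submodule.smul_mem _ _ (Submodule.subset_span hmem)
  · intro s
    unfold wt
    apply inv_pos.2
    have h1 : 0 < ‖s (Y b₀)‖ := norm_pos_iff.2 ((map_ne_zero s).2 hb₀)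
    exact h1.trans_le (le_ciSup (f := fun b => ‖s (Y b)‖) (Set.finite_range _).bddAbove b₀)

end Pool.Agent.H69.REM
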