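import Pool.Agent.H26.REM.Targets

/-!
# Row VLI of the board REM: different values modulo the value group
-/

set_option autoImplicit false

open Finset Pool.Agent.H26.REM

namespace Pool.Agent.H69.REM

/-- a finite sum of elements smaller than `B` is smaller than `B` -/
theorem nonarch_sum_lt {M ι : Type} [Field M] (v : AbsoluteValue M ℝ)
    (hv : IsNonarchimedean v) (f : ι → M) (B : ℝ) (hB : 0 < B) (A : Finset ι)
    (h : ∀ k ∈ A, v (f k) < B) : v (∑ k ∈ A, f k) < B := by
  classical
  induction A using Finset.induction_on with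
  | empty => simpa using hB
  | insert a s ha ih =>
    rw [Finset.sum_insert ha]
    refine lt_of_le_of_lt (hv _ _) (max_lt (h a (Finset.mem_insert_self _ _)) ?_)
    exact ih fun k hk => h k (Finset.mem_insert_of_mem hk)

/-- **Row VLI.** -/
theorem pf_VLI : T_VLI := by
  classical
  intro M1 M _ _ _ v hv c hc0 hc1 hval ι _ x t hx ht
  rw [Fintype.linearIndependent_iff]
  intro g hg i
  by_contra hi
  have hne : (Finset.univ.filter fun j : ι => g j ≠ 0).Nonempty :=
    ⟨i, Finset.mem_filter.2 ⟨Finset.mem_univ _, hi⟩⟩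
  obtain ⟨j, hj, hmax⟩ := Finset.exists_max_image _ (fun k => v (g k • x k)) hne
  rw [Finset.mem_filter] at hj
  have hform : ∀ k : ι, g k ≠ 0 → ∃ n : ℤ, v (g k • x k) = c ^ ((n : ℝ) + t k) := by
    intro k hk
    obtain ⟨n, hn⟩ := hval (g k) hk
    refine ⟨n, ?_⟩
    rw [Algebra.smul_def, map_mul, hn, hx k, Real.rpow_add hc0, Real.rpow_intCast]
  obtain ⟨nj, hnj⟩ := hform j hj.2
  have hB : 0 < v (g j • x j) := by
    rw [hnj]; exact Real.rpow_pos_of_pos hc0 _
  have hlt := nonarch_sum_lt v hv (fun k => g k • x k) _ hB (Finset.univ.erase j) (by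
    intro k hk
    rw [Finset.mem_erase] at hk
    by_cases h0 : g k = 0
    · simp only [h0, zero_smul, map_zero]
      exact hB
    · refine lt_of_le_of_ne (hmax k (Finset.mem_filter.2 ⟨Finset.mem_univ _, h0⟩)) ?_
      intro heq
      obtain ⟨nk, hnk⟩ := hform k h0
      rw [hnk, hnj] at heq
      have h1 := Real.rpow_right_inj hc0 hc1.ne |>.1 heq
      refine ht k j hk.1 (nj - nk) ?_
      push_cast
      linarith)
  rw [← Finset.add_sum_erase _ _ (Finset.mem_univ j)] at hg
  have h2 : ∑ k ∈ Finset.univ.erase j, g k • x k = -(g j • x j) := by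
    rw [eq_neg_iff_add_eq_zero, add_comm]; exact hg
  rw [h2, AbsoluteValue.map_neg] at hlt
  exact lt_irrefl _ hlt

end Pool.Agent.H69.REM
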